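import Pool.Agent.H25.V0D.Vd
import Pool.Agent.H24.DR3.Pv3

/-!
# `C` places, one law

`pv_c`: from the inputs `PrV` for `C` places and the row of the own heights on the whole block,
`(C - h) X log 2`: on one event of fixed probability and for one pivot `i`, a combination of the
gradients whose coefficient at the pivot is `1` and which has no coefficient after the pivot is
closed; the combination is a function of the line, and of the digits of the heights with the base.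
-/

set_option autoImplicit false

namespace Pool.V0D

open Finset Real MvPolynomial
open Pool.Agent.H49.Ent Pool.Agent.H32.Dense Pool.STK Pool.KA Pool.KSAT Pool.K2S Pool.PB Pool.S6C
open Pool.GEN Pool.CHT Pool.CHX Pool.ISO Pool.LA91 Pool.AVG71 Pool.AVG5 Pool.D2F2 Pool.AVG57
open Pool.PB.Trl (rt rt_mem t_rt)
open Pool.D2R (hgt)
open Pool.KVA (MI)
open Pool.KAF (rs Pr)
open Pool.BFL (Pb)
open Pool.LV64
open Pool.DR24 (zt3 bs3 piv_num)

/-- **`C` places, one law**: one closed combination of the gradients with a pivot. -/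
theorem pv_c (C : ℕ) (hC3 : C ≤ 3) (g : Fin C → Fin 3) (k K : ℕ) {h θ : ℝ} (hh : 0 < h)
    (hh1 : h ≤ 1) (hθ : 0 < θ) (HQ : ∀ a₂ a₁ σ : ℝ, 0 < a₁ → a₁ < a₂ → a₂ < h / 32 → 0 < σ →
      (∀ i, σ < bs3 h a₂ a₁ i) → QhLam C g K h a₂ a₁ σ) :
    ∃ κ ζ : Fin C → ℝ, (∀ i, 0 < κ i ∧ κ i ≤ 1 / 4 ∧ 0 ≤ ζ i ∧ ζ i ≤ θ * κ i) ∧
      ∃ c₀ ι π₀ : ℝ, 0 < c₀ ∧ 0 < ι ∧ 0 < π₀ ∧ ∃ X₀ : ℕ,
      ∀ {m J : ℕ} {F : Fam m J} {c : ℕ → Fin m} {mv : Fin k → ℕ} {tg qt Xt : Fin C → ℕ}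
        {q w W X mm D : ℕ} {γ : ℕ → ℕ} {B : F.Ω → Prop}
        {G₀ : PtT F → ℕ → MvPolynomial (Option (Fin m)) ℝ}
        {H : LnT F → ℕ → MvPolynomial (Option (Fin m)) ℝ} {gg : F.Ω → Fin C → Fin k → ℝ}
        {ζ₀ ζ' υ' χ₁ χ₂ ρ₁ ρ₂ σ' : Type} {z : F.Ω → ζ₀} {zw : F.Ω → ζ'} {Yc : F.Ω → υ'}
        {Cj : F.Ω → χ₁} {Cx : F.Ω → χ₂} {Rj : F.Ω → ρ₁} {Rx : F.Ω → ρ₂} {Bs : F.Ω → σ'}
        {Nb : Fin k → ℝ} {p : F.Ω → ℝ} {Nf Nn Nx Nu Nv : Fin k → ℕ → ℝ}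
        {Mf Mn : Fin C → ℕ → ℝ} {U e : ℝ}
        (_ : PrV F c mv tg qt Xt q w W X mm D K γ B G₀ H gg z zw Yc Cj Cx Rj Rx
          (Vm F c mv w H Nb) p Nf Nn Nx Nu Nv Mf Mn U (k * (X * Real.log 2)) e)
        {Ur ψ ε₀ : ℝ} {j₀ : ℕ}, (∀ j, ((γ (mv j) + q + X : ℕ) : ℝ) ≤ Nb j) →
        (∀ j, Nb j ≤ (γ (mv j) + q + (X + mm) : ℕ)) → (∀ u, Xt u = X) →
        Det p (fun ω => ((Vm F c mv w H Nb ω, Mu F c tg qt w γ H ω),
          ((adV F c mv tg qt Xt q w W X mm γ gg H z).T ω,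
            (adV F c mv tg qt Xt q w W X mm γ gg H z).g K ω))) Bs →
        MI p (Mm F c tg w H (fun u => γ (tg u) + qt u + Xt u)) (fun ω => (Vm F c mv w H Nb ω,
          ((adV F c mv tg qt Xt q w W X mm γ gg H z).T ω,
            (adV F c mv tg qt Xt q w W X mm γ gg H z).g K ω))) Bs ≤ ι * X →
        (∀ E : Set F.Ω, π₀ ≤ Pr p E → CH (rs p E)
          (Mm F c tg w H (fun u => γ (tg u) + qt u + Xt u))
          (fun ω => ((Vm F c mv w H Nb ω, Mu F c tg qt w γ H ω), (rt F W ω, z ω))) ≤ Ur) →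
        TimW F p W j₀ ε₀ ψ → Det p (slam F W) z → X₀ ≤ X → W + X ≤ J → ψ * J ≤ ι * X →
        (mm : ℝ) ≤ ι * X → Evn C k K U e ≤ ι * X →
        Ur ≤ (C - h) * X * Real.log 2 + ι * X →
        ∃ (i : Fin C) (G : F.Ω → Prop) (lam : LnT F → Fin C → ℝ)
          (lamP : (Fin C → ℤ) × σ' → Fin C → ℝ) (mu : LnT F → Fin k → Polynomial ℝ),
          c₀ ≤ Pe p G ∧ (∀ s, lam s i = 1) ∧ (∀ s l, i < l → lam s l = 0) ∧
          (∀ s l, |lam s l| ≤ (2 : ℝ) ^ (ζ i * X)) ∧ (∀ s j, (mu s j).natDegree ≤ K) ∧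
          (∀ ω, 0 < p ω → G ω → lam (slam F W ω) =
            lamP (Mm F c tg w H (fun u => γ (tg u) + qt u + Xt u) ω, Bs ω)) ∧
          ∀ ω, 0 < p ω → G ω → ∀ j, |∑ u, lam (slam F W ω) u * gg ω u j -
            (mu (slam F W ω) j).eval (rt F W ω)| ≤ (2 : ℝ) ^ (-(κ i * X)) := by
  classical
  have hk0 : (0 : ℝ) ≤ k := Nat.cast_nonneg k
  obtain ⟨a₂, a₁, ha, h12, h2, h64, hbs, hzt⟩ := piv_num hh hh1 hθ
  refine ⟨fun i => bs3 h a₂ a₁ (g i) / 2, fun i => zt3 a₂ a₁ (g i),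
    fun i => ⟨?_, ?_, (hzt (g i)).1, (hzt (g i)).2.2⟩, ?_⟩
  · show 0 < bs3 h a₂ a₁ (g i) / 2
    have := (hbs (g i)).1
    linarith
  · show bs3 h a₂ a₁ (g i) / 2 ≤ 1 / 4
    have := (hbs (g i)).2
    linarith
  obtain ⟨ι₀, π₀, m₀, hι₀, hπ₀, hm₀, X1, hX1⟩ := vd_c C g k K (σ := a₁ / 4) (CB := k + 1) hh1
    ha h12 h2 (by linarith) (by positivity) (HQ a₂ a₁ (a₁ / 4 / 4) ha h12 h2 (by linarith)
      fun i => by linarith [(hbs i).1])
  obtain ⟨ι, hι⟩ : ∃ ι : ℝ, ι = ι₀ / 2 := ⟨_, rfl⟩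
  have hιp : 0 < ι := by rw [hι]; linarith
  obtain ⟨X3, hX3⟩ := exists_nat_ge (1 / (a₁ / 4))
  obtain ⟨X4, hX4⟩ := exists_nat_ge (k * cV K / ι₀)
  refine ⟨m₀, ι, π₀, hm₀, hιp, hπ₀, max X1 (max X3 (max X4 6)), ?_⟩
  intro m J F c mv tg qt Xt q w W X mm D γ B G₀ H gg ζ₀ ζ' υ' χ₁ χ₂ ρ₁ ρ₂ σ' z zw Yc Cj Cx Rj Rx
    Bs Nb p Nf Nn Nx Nu Nv Mf Mn U e P Ur ψ ε₀ j₀ hN1 hN2 hXt hBs hfew hrow hT hz hX hJ hψ hmm
    hEv hUr
  have hp := P.law
  have h0 := hp.nonneg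
  have hXR : (0 : ℝ) ≤ X := Nat.cast_nonneg _
  have hXa : X1 ≤ X := (le_max_left _ _).trans hX
  have n3 : 1 ≤ a₁ / 4 * X := by
    have h1 : (X3 : ℝ) ≤ X := by
      exact_mod_cast (le_max_left _ _).trans ((le_max_right _ _).trans hX)
    have h2 := hX3.trans h1
    rw [div_le_iff₀ (by linarith)] at h2
    linarith
  have n4 : k * cV K ≤ ι₀ * X := by
    have h1 : (X4 : ℝ) ≤ X := by
      exact_mod_cast (le_max_left _ _).trans ((le_max_right _ _).trans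
        ((le_max_right _ _).trans hX))
    have h2 := hX4.trans h1
    rw [div_le_iff₀ hι₀] at h2
    linarith
  have n6 : (6 : ℝ) ≤ X := by
    exact_mod_cast (le_max_right _ _).trans ((le_max_right _ _).trans
      ((le_max_right _ _).trans hX))
  have hιX : ι * X + ι * X = ι₀ * X := by rw [hι]; ring
  have hιX0 : 0 ≤ ι * X := by positivity
  have hyp := P.hypm hN1 hN2
  have hLs := adV_L (c := c) (mv := mv) (tg := tg) (qt := qt) (Xt := Xt) (q := q) (w := w)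
    (X := X) (mm := mm) (γ := γ) (gg := gg) (H := H) p hz K
  have hbbr := fun (ω : F.Ω) (u : Fin C) (j : Fin k) => adV_bbr (c := c) (mv := mv) (tg := tg)
    (qt := qt) (Xt := Xt) (q := q) (w := w) (W := W) (X := X) (mm := mm) (γ := γ) (gg := gg)
    (H := H) (z := z) ω u j
  have hup : ∀ ω, (fun u => Mm F c tg w H (fun u => γ (tg u) + qt u + Xt u) ω u / 2 ^ X) =
      Mu F c tg qt w γ H ω := by
    intro ω
    funext u
    show Mh F c (tg u) w H (γ (tg u) + qt u + Xt u) ω / 2 ^ X = _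
    rw [hXt u, mh_up]
    rfl
  have hWn : ∀ ω, Wn X (Vm F c mv w H Nb)
      (Mm F c tg w H (fun u => γ (tg u) + qt u + Xt u)) ω =
      (Vm F c mv w H Nb ω, Mu F c tg qt w γ H ω) := fun ω => Prod.ext rfl (hup ω)
  have hWS : (fun ω => (Wn X (Vm F c mv w H Nb)
        (Mm F c tg w H (fun u => γ (tg u) + qt u + Xt u)) ω,
          ((adV F c mv tg qt Xt q w W X mm γ gg H z).th ω,
          (adV F c mv tg qt Xt q w W X mm γ gg H z).z ω))) =
      fun ω => ((Vm F c mv w H Nb ω, Mu F c tg qt w γ H ω), (rt F W ω, z ω)) := by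
    funext ω
    rw [hWn]
    rfl
  have hBs' : Det p (fun ω => (Wn X (Vm F c mv w H Nb)
        (Mm F c tg w H (fun u => γ (tg u) + qt u + Xt u)) ω,
          ((adV F c mv tg qt Xt q w W X mm γ gg H z).T ω,
          (adV F c mv tg qt Xt q w W X mm γ gg H z).g K ω))) Bs := by
    intro ω ν hω hν e
    obtain ⟨e1, e2⟩ := Prod.ext_iff.mp e
    have e5 : Wn X (Vm F c mv w H Nb) (Mm F c tg w H (fun u => γ (tg u) + qt u + Xt u)) ω =
      Wn X (Vm F c mv w H Nb) (Mm F c tg w H (fun u => γ (tg u) + qt u + Xt u)) ν := e1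
    rw [hWn, hWn] at e5
    exact hBs ω ν hω hν (Prod.ext e5 e2)
  have htime : X * Real.log 2 - ι₀ * X ≤
      CH p (fun ω => ⌊(2 : ℝ) ^ X * (adV F c mv tg qt Xt q w W X mm γ gg H z).th ω⌋)
        ((adV F c mv tg qt Xt q w W X mm γ gg H z).L K) := by
    have h1 := hT.f X hJ
    have h2 : CH p (fun ω => ⌊(2 : ℝ) ^ X * F.tw W ω⌋) (slam F W) ≤
        CH p (fun ω => ⌊(2 : ℝ) ^ X * F.tw W ω⌋)
          ((adV F c mv tg qt Xt q w W X mm γ gg H z).L K) := CH_mono_cond h0 hLs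
    have hth : (adV F c mv tg qt Xt q w W X mm γ gg H z).th = F.tw W := by
      funext ω
      exact (tw_rt F P.WJ ω).symm
    rw [hth]
    linarith
  have hU1 := P.mU
  have hB : (k : ℝ) * (U + 1) + 1 ≤ (k + 1) * 2 ^ mm := by
    have h1 : (k : ℝ) * (U + 1) ≤ k * 2 ^ mm := mul_le_mul_of_nonneg_left hU1 hk0
    have h2 : (1 : ℝ) ≤ 2 ^ mm := one_le_pow₀ (by norm_num)
    linarith
  have he2 : Evn C k K U e ≤ ι₀ * X := by linarith
  have hyp2 : (adV F c mv tg qt Xt q w W X mm γ gg H z).Hyp K p Rj Rx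
      (fun ω => (jetm F c mv w H Nn ω, fun u => pr2 F c w H (tg u) (Mn u) ω))
      (jetm F c mv w H Nx)
      (fun ω => (jetm F c mv w H Nf ω, fun u => pr2 F c w H (tg u) (Mf u) ω))
      (jetm F c mv w H Nf) (Vm F c mv w H Nb)
      (Mm F c tg w H (fun u => γ (tg u) + qt u + Xt u))
      (k * (X * Real.log 2) + k * cV K) (ι₀ * X) (k * (U + 1) + 1) := hyp.mono he2
  obtain ⟨i, lam, lamP, mu, G, g1, g2, g3, g4, g5, g6, g7⟩ := hX1 p
    (adV F c mv tg qt Xt q w W X mm γ gg H z) Rj Rx _ _ _ _ (Vm F c mv w H Nb) _ Bs _ (ι₀ * X)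
    (k * (U + 1) + 1) Ur hXa hyp2 htime hBs' (hfew.trans (by linarith))
    (fun G hG => by
      have h1 := hrow {ω | G ω} hG
      rw [← hWS] at h1
      exact h1) (by
      show k * (X * Real.log 2) + k * cV K ≤ k * X * Real.log 2 + ι₀ * X
      linarith) le_rfl
    (hmm.trans (by
      show ι * X ≤ ι₀ * X
      linarith)) hB (by
      show Ur ≤ (C - h) * X * Real.log 2 + ι₀ * X
      linarith)
  obtain ⟨f, hf1, hf2⟩ := lift_line hLs (fun l => (lam l, mu l))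
    ((fun _ => 0, fun _ => 0) : (Fin C → ℝ) × (Fin k → Polynomial ℝ))
  have hfe : ∀ ω, 0 < p ω → (f (slam F W ω)).1 =
      lam ((adV F c mv tg qt Xt q w W X mm γ gg H z).L K ω) := fun ω hω => by
    rw [hf2 ω hω]
  have hfm : ∀ ω, 0 < p ω → (f (slam F W ω)).2 =
      mu ((adV F c mv tg qt Xt q w W X mm γ gg H z).L K ω) := fun ω hω => by
    rw [hf2 ω hω]
  have one_z : (1 : ℝ) ≤ (2 : ℝ) ^ (zt3 a₂ a₁ (g i) * X) :=
    Real.one_le_rpow one_le_two (mul_nonneg (hzt (g i)).1 hXR)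
  obtain ⟨ll, hll⟩ : ∃ ll : LnT F → Fin C → ℝ, ∀ s,
      ll s = if (f s).1 i = 1 then (f s).1 else Pi.single i 1 := ⟨_, fun _ => rfl⟩
  have hlg : ∀ ω, 0 < p ω → G ω → ll (slam F W ω) =
      lam ((adV F c mv tg qt Xt q w W X mm γ gg H z).L K ω) := by
    intro ω hω hG
    rw [hll, if_pos (by rw [hfe ω hω]; exact g2 ω hω hG), hfe ω hω]
  refine ⟨i, G, ll, lamP, fun s => (f s).2, g1, fun s => ?_, fun s l hl => ?_, fun s l => ?_,
    fun s j => ?_, fun ω hω hG => ?_, fun ω hω hG j => ?_⟩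
  · rw [hll]
    split_ifs with h1
    · exact h1
    · exact Pi.single_eq_same i 1
  · rw [hll]
    split_ifs with h1
    · rcases hf1 s with h3 | ⟨a, h3⟩
      · rw [h3]
      · rw [h3]
        exact g3 a l hl
    · exact Pi.single_eq_of_ne hl.ne' 1
  · rw [hll]
    split_ifs with h1
    · rcases hf1 s with h3 | ⟨a, h3⟩
      · rw [h3]
        show |(0 : ℝ)| ≤ _
        rw [abs_zero]
        linarith
      · rw [h3]
        exact g4 a l
    · refine le_trans ?_ one_z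
      by_cases hil : l = i
      · rw [hil, Pi.single_eq_same, abs_one]
      · rw [Pi.single_eq_of_ne hil, abs_zero]
        exact zero_le_one
  · show ((f s).2 j).natDegree ≤ K
    rcases hf1 s with h1 | ⟨a, h1⟩
    · rw [h1]
      simp
    · rw [h1]
      exact g5 a j
  · rw [hlg ω hω hG]
    exact g6 ω hω hG
  · show |∑ u, ll (slam F W ω) u * gg ω u j - ((f (slam F W ω)).2 j).eval (rt F W ω)| ≤ _
    rw [hlg ω hω hG, hfm ω hω]
    have e1 := g7 ω hω hG j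
    obtain ⟨a, ha'⟩ : ∃ a, a = (adV F c mv tg qt Xt q w W X mm γ gg H z).L K ω := ⟨_, rfl⟩
    rw [← ha'] at e1 ⊢
    have e1' : |∑ l, lam a l * (adV F c mv tg qt Xt q w W X mm γ gg H z).bb ω l j -
        (mu a j).eval (rt F W ω)| ≤ (2 : ℝ) ^ ((a₁ / 4 - bs3 h a₂ a₁ (g i)) * X) := e1
    have e2 : |∑ u, lam a u * gg ω u j -
        ∑ u, lam a u * (adV F c mv tg qt Xt q w W X mm γ gg H z).bb ω u j| ≤
        C * ((2 : ℝ) ^ (a₂ * X) * (1 / 2 ^ X)) := by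
      rw [← Finset.sum_sub_distrib]
      refine (Finset.abs_sum_le_sum_abs _ _).trans ((Finset.sum_le_sum
        (g := fun _ => (2 : ℝ) ^ (a₂ * X) * (1 / 2 ^ X)) fun u _ => ?_).trans (le_of_eq ?_))
      · rw [← mul_sub, abs_mul]
        refine mul_le_mul ((g4 a u).trans ?_) (hbbr ω u j) (abs_nonneg _)
          (Real.rpow_pos_of_pos two_pos _).le
        exact Real.rpow_le_rpow_of_exponent_le one_le_two
          (mul_le_mul_of_nonneg_right (hzt (g i)).2.1 hXR)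
      · rw [Finset.sum_const, Finset.card_univ, Fintype.card_fin, nsmul_eq_mul]
    have hb1 := (hbs (g i)).1
    have hb2 := (hbs (g i)).2
    have e3 : (2 : ℝ) * (2 : ℝ) ^ ((a₁ / 4 - bs3 h a₂ a₁ (g i)) * X) ≤
        (2 : ℝ) ^ (-(bs3 h a₂ a₁ (g i) / 2 * X)) := by
      have h1 : (2 : ℝ) * (2 : ℝ) ^ ((a₁ / 4 - bs3 h a₂ a₁ (g i)) * X) =
          (2 : ℝ) ^ (1 + (a₁ / 4 - bs3 h a₂ a₁ (g i)) * X) := by
        rw [Real.rpow_add two_pos, Real.rpow_one]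
      rw [h1]
      refine Real.rpow_le_rpow_of_exponent_le one_le_two ?_
      have h3 : a₁ * X ≤ bs3 h a₂ a₁ (g i) * X := mul_le_mul_of_nonneg_right hb1 hXR
      have h4 : (a₁ / 4 - bs3 h a₂ a₁ (g i)) * X = a₁ / 4 * X - bs3 h a₂ a₁ (g i) * X := by ring
      have h5 : a₁ / 4 * X = a₁ * X / 4 := by ring
      have h6 : bs3 h a₂ a₁ (g i) / 2 * X = bs3 h a₂ a₁ (g i) * X / 2 := by ring
      rw [h4, h6]
      linarith
    have e4 : (2 : ℝ) * (C * ((2 : ℝ) ^ (a₂ * X) * (1 / 2 ^ X))) ≤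
        (2 : ℝ) ^ (-(bs3 h a₂ a₁ (g i) / 2 * X)) := by
      have h1 : (1 : ℝ) / 2 ^ X = (2 : ℝ) ^ (-(X : ℝ)) := by
        rw [one_div, ← Real.rpow_natCast, ← Real.rpow_neg two_pos.le]
      have h3 : (8 : ℝ) * ((2 : ℝ) ^ (a₂ * X) * (2 : ℝ) ^ (-(X : ℝ))) =
          (2 : ℝ) ^ (3 + (a₂ * X + -(X : ℝ))) := by
        rw [Real.rpow_add two_pos, Real.rpow_add two_pos]
        norm_num
      have h4 : (2 : ℝ) * (C * ((2 : ℝ) ^ (a₂ * X) * (2 : ℝ) ^ (-(X : ℝ)))) ≤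
          8 * ((2 : ℝ) ^ (a₂ * X) * (2 : ℝ) ^ (-(X : ℝ))) := by
        have : 0 < (2 : ℝ) ^ (a₂ * X) * (2 : ℝ) ^ (-(X : ℝ)) := by positivity
        have hC : (C : ℝ) ≤ 3 := by exact_mod_cast hC3
        have := mul_le_mul_of_nonneg_right hC this.le
        linarith
      rw [h1]
      refine h4.trans ?_
      rw [h3]
      refine Real.rpow_le_rpow_of_exponent_le one_le_two ?_
      have h5 : a₂ * X ≤ 1 / 64 * X := mul_le_mul_of_nonneg_right h64 hXR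
      have h6 : bs3 h a₂ a₁ (g i) / 2 * X ≤ 1 / 64 * X :=
        mul_le_mul_of_nonneg_right (by linarith) hXR
      linarith
    have e5 := abs_sub_le (∑ u, lam a u * gg ω u j)
      (∑ u, lam a u * (adV F c mv tg qt Xt q w W X mm γ gg H z).bb ω u j)
      ((mu a j).eval (rt F W ω))
    show |∑ u, lam a u * gg ω u j - (mu a j).eval (rt F W ω)| ≤
      (2 : ℝ) ^ (-(bs3 h a₂ a₁ (g i) / 2 * X))
    linarith

end Pool.V0D
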