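import Pool.Agent.H25.V0P.Cor
import Pool.Agent.H25.V0P.St3
import Pool.Agent.H25.V0D.Pv

/-!
# One and two targets of one slope: the event theorem

`v0tFin2`, `v0tFin1`: the statements `V0tFin 2` and `V0tFin 1`.
-/

set_option autoImplicit false

namespace Pool.V0P

open Finset Real MvPolynomial
open Pool.Agent.H49.Ent Pool.Agent.H32.Dense
open Pool.STK hiding pr2
open Pool.KA Pool.KSAT Pool.K2S Pool.PB Pool.S6C
open Pool.GEN Pool.CHT Pool.CHX Pool.ISO Pool.LA91 Pool.AVG71 Pool.AVG5 Pool.D2F2 Pool.AVG57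
open Pool.PB.Trl (rt rt_mem t_rt)
open Pool.LV64 (GrdV PrV Vm Mm Mu adV adV_ti CH_pi Evn VD mh_up)
open Pool.KVA (MI)
open Pool.D2R (hgt)
open Pool.KAF (rs Pr)
open Pool.BFL (Pb)
open Pool.V0F (VLaw2 VLaw)
open Pool.V0D (pv_c QhLam lam_3 lam_dn)
open Pool.DR24 (bs3)

/-- **The event theorem for `C` targets**, from the covector. -/
theorem v0tFin_c (C : ℕ) (hC3 : C ≤ 3) (i₀ : Fin C) (g : Fin C → Fin 3)
    (HQ : ∀ (n : ℕ) (h a₂ a₁ σ : ℝ), 1 ≤ n → 0 < h → h ≤ 1 → 0 < a₁ → a₁ < a₂ → a₂ < h / 32 →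
      0 < σ → (∀ i, σ < bs3 h a₂ a₁ i) → QhLam C g n h a₂ a₁ σ) : V0tFin C := by
  intro k K h θ hK hh hh1 hθ
  obtain ⟨κ₂, ζ₂, hκζ, c₀, ι, π₀, hc₀, hι, hπ₀, X₀, hpv⟩ := pv_c C hC3 g k K hh hh1 hθ
    fun a₂ a₁ σ e1 e2 e3 e4 e5 => HQ K h a₂ a₁ σ hK hh hh1 e1 e2 e3 e4 e5
  obtain ⟨Ca, hCa, hprv⟩ := vpc_prv k C K
  obtain ⟨τ₁, X₁, hτ₁, hnum⟩ := vpc_nums k C K hι
  obtain ⟨τ, hτ⟩ : ∃ τ : ℝ, τ = min τ₁ ι := ⟨_, rfl⟩
  have hτ0 : 0 < τ := by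
    rw [hτ]
    exact lt_min hτ₁ hι
  have hτa : τ ≤ τ₁ := by rw [hτ]; exact min_le_left _ _
  have hτb : τ ≤ ι := by rw [hτ]; exact min_le_right _ _
  refine ⟨κ₂, ζ₂, hκζ, min π₀ 1, c₀ / 3 ^ (k + C), τ, 1, Ca, 0, max (max X₀ X₁) K,
    lt_min hπ₀ one_pos, min_le_right _ _, by positivity, hτ0, one_pos, hCa, ?_⟩
  intro m J F c mv tg qt q w W X mm D γ B G₀ H gg ζ χ₁ χ₂ ρ₁ ρ₂ ρ₃ ξ₆ zw Cj Cx Rj Rx R' XJ p Nf Nn
    Nu Nv nb Mf Mn vt U Fv Gf κ' e₁ d ψ hp sup wW hWX deg DK cls grd mU V hj hx zL zP n0 n1 u0 u1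
    m0 m0' mf mf' v0' vs hc2 f0 f1 v0 v1 hv1 hd0 hv0 dj jt hD hf nb1 nb2 cells row T hX hs hmm
  have h0 := hp.nonneg
  have he1 : 0 ≤ e₁ := (CH_nonneg h0 _ _).trans (dj i₀)
  have hc : VpC F c mv tg qt q w W X mm D K γ B G₀ H gg zw Cj Cx Rj Rx R' XJ p Nf Nn Nu Nv nb Mf
      Mn vt U Fv Gf κ' e₁ d ψ 1 0 := ⟨hp, sup, wW, hWX, deg, DK, cls, grd, mU, V, hj, hx, zL, zP,
    n0, n1, u0, u1, m0, m0', mf, mf', v0', vs, hc2, f0, f1, v0, v1, hv1, hd0, hv0, dj, jt, hD, hf,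
    nb1, nb2, cells, T, he1⟩
  have hX0 : (0 : ℝ) ≤ X := Nat.cast_nonneg X
  have hXX0 : X₀ ≤ X := (le_max_left _ _).trans ((le_max_left _ _).trans hX)
  have hXX1 : X₁ ≤ X := (le_max_right _ _).trans ((le_max_left _ _).trans hX)
  have hXK : K ≤ X := (le_max_right _ _).trans hX
  have hψ := hc.psi0
  have hτX : κ' + d + e₁ + Ca + ψ * J ≤ τ₁ * X :=
    hs.trans (mul_le_mul_of_nonneg_right hτa hX0)
  have hmX : (mm : ℝ) ≤ τ₁ * X := hmm.trans (mul_le_mul_of_nonneg_right hτa hX0)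
  obtain ⟨q1, q2⟩ := hnum X mm κ' d e₁ Ca (ψ * J) U hXX1 V.κ0 hd0 he1 hCa hψ hτX hmX grd.U0 mU
  have P := hprv hc hXK
  have few := hc.few P
  have hτι : τ * X ≤ ι * X := mul_le_mul_of_nonneg_right hτb hX0
  have hV := V.κ0
  obtain ⟨i, G, lam, lamP, mu, b1, b2, b3, b4, b5, b6, b7⟩ := hpv P
    (Ur := (C - h) * X * Real.log 2 + τ * X) (ψ := ψ) (ε₀ := 1) (j₀ := 0)
    (Bs := bsc F c mv tg qt w W γ H nb zw) nb1 nb2 (fun _ => rfl)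
    (VpC.hBs p) (few.trans q2)
    (fun E hE => by
      have hE0 : 0 < Pr p E := hπ₀.trans_le hE
      have hql : IsLaw (rs p E) :=
        ⟨cond_nonneg hp.nonneg (fun ω => ω ∈ E) True, sum_cond p (fun ω => ω ∈ E) hE0.ne'⟩
      have h1 := row E ((min_le_left _ _).trans hE)
      have h2 := CH_mono_cond hql.nonneg (X := Mm F c tg w H (fun u => γ (tg u) + qt u + X))
        (hc.bdet (rs p E))
      exact h2.trans h1)
    T hc.hz hXX0 hWX (by linarith) (by linarith) q1 (by linarith)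
  obtain ⟨zz, G', c1, c2, c3⟩ := hc.out b6 hc₀ b1
  exact ⟨i, G', lam, zz, mu, c2, b2, b3, b4, b5,
    fun ω hω hG => ⟨c3 ω hω hG, b7 ω hω (c1 ω hG)⟩⟩

/-- **Two targets.** -/
theorem v0tFin2 : V0tFin 2 :=
  v0tFin_c 2 (by norm_num) 0 _ fun n h a₂ a₁ σ hn hh hh1 ha h12 h2 hσ hb =>
    lam_dn hb (by push_cast; linarith) (lam_3 n hn hh hh1 ha h12 h2 hσ)

/-- **One target.** -/
theorem v0tFin1 : V0tFin 1 :=
  v0tFin_c 1 (by norm_num) 0 _ fun n h a₂ a₁ σ hn hh hh1 ha h12 h2 hσ hb =>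
    lam_dn hb (by push_cast; linarith)
      (lam_dn (c := 2) hb (by push_cast; linarith) (lam_3 n hn hh hh1 ha h12 h2 hσ))

end Pool.V0P
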