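import Pool.Agent.H25.V0D.Un

/-!
# One more coordinate

`DcH`: the hypotheses `D3H` of 24 for `c` coordinates. `dum`: one more coordinate in front and one
more base coordinate, both independent of the others; the slope is a coin of the time. `dum_ok`: the
picture `dum` has the same hypotheses.
-/

set_option autoImplicit false

namespace Pool.V0D

open Finset Real
open Pool.Agent.H49.Ent Pool.Agent.H32.Dense Pool.STK
open Pool.FTM (un un_isLaw un_psh CH_un CH_un_snd un_pos)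
open Pool.K2S (Pe)
open Pool.KVA (MI)
open Pool.AVG71 (MI_eq)
open Pool.BD64 (QHd pol)

variable {c k n : ℕ}

/-- **The hypotheses.** -/
structure DcH (H : QHd c k n) {ρ β σ : Type} (S : H.Ω → ρ) (Wd : H.Ω → β) (Z : H.Ω → Fin c → ℤ)
    (Bs : H.Ω → σ) (X : ℕ) (C d h ϖ : ℝ) : Prop where
  ok : H.OkNS X C d
  Z_b : ∀ ω i, |(Z ω i : ℝ)| ≤ C * 2 ^ X
  nu_b : ∀ ω i, |(H.nu ω i : ℝ)| ≤ C * 2 ^ X
  rel : ∀ ω ω', 0 < H.p ω → 0 < H.p ω' → Wd ω = Wd ω' → H.th ω = H.th ω' → H.b ω = H.b ω' → ∀ i,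
    |((Z ω i : ℝ) - Z ω' i) - ((H.hgt ω i : ℝ) - H.hgt ω' i)| ≤ C
  vd : CH H.p Wd (fun ω => (H.th ω, (H.v ω, H.b ω))) ≤ d
  SY : Det H.p (fun ω => (Wd ω, (H.th ω, H.b ω))) S
  BY : Det H.p (fun ω => (Wd ω, (H.th ω, H.b ω))) Bs
  few : MI H.p Z (fun ω => (Wd ω, (H.th ω, H.b ω))) Bs ≤ d
  nf : ∀ G : H.Ω → Prop, ϖ ≤ Pe H.p G → 0 < Pe H.p G →
    CH (cond H.p G True) Z (fun ω => (Wd ω, S ω)) ≤ (c - h) * X * Real.log 2 + d

/-- One more coordinate. -/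
noncomputable def dum (H : QHd c k n) (R M : ℕ) : QHd (c + 1) (k + 1) n where
  Ω := W3 H.Ω R M
  iΩ := inferInstance
  B := H.B
  Vt := H.Vt × ℤ
  Tt := H.Tt × ℤ
  p := u3 R M H.p
  b w := H.b w.1.1.1
  nu w := Fin.cons ((w.2 : ℕ) : ℤ) (H.nu w.1.1.1)
  v w := (H.v w.1.1.1, ((w.1.2 : ℕ) : ℤ))
  th w := (H.th w.1.1.1, ((w.1.1.2 : ℕ) : ℤ))
  tau t := H.tau t.1
  E t := Fin.cons (Fin.cons ((t.2 : ℝ) / R) fun _ => 0) fun u => Fin.cons 0 (H.E t.1 u)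
  y v := Fin.cons v.2 (H.y v.1)
  be v s := Fin.cons 0 (H.be v.1 s)
  g t v := Fin.cons (-(t.2 * v.2 / R)) (H.g t.1 v.1)
  a0 t := Fin.cons 0 (H.a0 t.1)
  b0 v := Fin.cons 0 (H.b0 v.1)

/-- The height of the new coordinate. -/
def hz {Ω : Type} {R M : ℕ} (w : W3 Ω R M) : ℤ :=
  ((w.2 : ℕ) : ℤ) + -(((w.1.1.2 : ℕ) : ℤ) * ((w.1.2 : ℕ) : ℤ) / R)

theorem dum_hgt (H : QHd c k n) (R M : ℕ) (w : W3 H.Ω R M) :
    (dum H R M).hgt w = Fin.cons (hz w) (H.hgt w.1.1.1) := by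
  funext i
  refine Fin.cases ?_ (fun j => ?_) i
  · rfl
  · rfl

theorem dv_le {R M : ℕ} (x : Fin R) (y : Fin M) :
    0 ≤ ((x : ℕ) : ℤ) * ((y : ℕ) : ℤ) / (R : ℤ) ∧ ((x : ℕ) : ℤ) * ((y : ℕ) : ℤ) / (R : ℤ) ≤ M ∧
      |(-((((x : ℕ) : ℤ) * ((y : ℕ) : ℤ) / (R : ℤ) : ℤ) : ℝ)) -
        (-(((x : ℕ) : ℝ) / R * ((y : ℕ) : ℝ)))| ≤ 1 := by
  have hR : 0 < R := lt_of_le_of_lt (Nat.zero_le _) x.2
  have hR' : (0 : ℤ) < R := by exact_mod_cast hR
  have hRr : (0 : ℝ) < R := by exact_mod_cast hR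
  obtain ⟨z, hz⟩ : ∃ z : ℤ, z = ((x : ℕ) : ℤ) * ((y : ℕ) : ℤ) := ⟨_, rfl⟩
  have hz0 : 0 ≤ z := by rw [hz]; positivity
  have hz1 : z ≤ R * M := by
    rw [hz]
    have h1 : ((x : ℕ) : ℤ) ≤ R := by exact_mod_cast x.2.le
    have h2 : ((y : ℕ) : ℤ) ≤ M := by exact_mod_cast y.2.le
    exact mul_le_mul h1 h2 (by positivity) hR'.le
  rw [← hz]
  refine ⟨Int.ediv_nonneg hz0 hR'.le, ?_, ?_⟩
  · have h1 : z / R ≤ R * M / R := Int.ediv_le_ediv hR' hz1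
    rwa [Int.mul_ediv_cancel_left _ hR'.ne'] at h1
  · have e1 : ((x : ℕ) : ℝ) / R * ((y : ℕ) : ℝ) = (z : ℝ) / R := by
      rw [hz]
      push_cast
      ring
    rw [e1]
    have h1 := Int.ediv_mul_le z hR'.ne'
    have h2 := Int.lt_ediv_add_one_mul_self z hR'
    have h1' : ((z / (R : ℤ) : ℤ) : ℝ) * R ≤ z := by exact_mod_cast h1
    have h2' : (z : ℝ) < (((z / (R : ℤ) : ℤ) : ℝ) + 1) * R := by exact_mod_cast h2
    have h3 : ((z / (R : ℤ) : ℤ) : ℝ) ≤ (z : ℝ) / R := by rwa [le_div_iff₀ hRr]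
    have h4 : (z : ℝ) / R < ((z / (R : ℤ) : ℤ) : ℝ) + 1 := by rwa [div_lt_iff₀ hRr]
    rw [abs_le]
    constructor <;> linarith

theorem hz_le {Ω : Type} {R M : ℕ} (w : W3 Ω R M) : |(hz w : ℝ)| ≤ M := by
  obtain ⟨h1, h2, -⟩ := dv_le w.1.1.2 w.1.2
  have h3 : ((w.2 : ℕ) : ℤ) ≤ M := by exact_mod_cast w.2.2.le
  have h4 : (0 : ℤ) ≤ ((w.2 : ℕ) : ℤ) := by positivity
  have h5 : |hz w| ≤ M := by
    unfold hz
    rw [abs_le]
    constructor <;> linarith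
  exact_mod_cast h5

theorem hz_inj {Ω : Type} {R M : ℕ} {w w' : W3 Ω R M} (h1 : w.1.1.2 = w'.1.1.2)
    (h2 : w.1.2 = w'.1.2) (h : hz w = hz w') : w.2 = w'.2 := by
  unfold hz at h
  rw [h1, h2] at h
  have h3 : ((w.2 : ℕ) : ℤ) = ((w'.2 : ℕ) : ℤ) := by linarith
  exact Fin.ext (by exact_mod_cast h3)

theorem hz_cnt {Ω T : Type} [Fintype Ω] {R M : ℕ} {q : W3 Ω R M → ℝ} (hq : IsLaw q)
    (W : W3 Ω R M → T) : CH q hz W ≤ Real.log (4 * M + 1) := by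
  obtain ⟨Z, hZ⟩ : ∃ Z : W3 Ω R M → Fin 1 → ℤ, Z = fun w _ => hz w := ⟨_, rfl⟩
  have h1 := Pool.TQ.CH_cnt hq Z W (M := M) fun w _ i => by
    rw [hZ]
    exact hz_le w
  rw [Nat.cast_one, one_mul] at h1
  refine le_trans (CH_mono_left hq.nonneg (X' := Z) ?_) h1
  intro w w' _ _ e
  have e1 : Z w = Z w' := (Prod.ext_iff.mp e).1
  rw [hZ] at e1
  exact congrFun e1 0

theorem co_cnt {Ω T : Type} [Fintype Ω] {R M : ℕ} {q : W3 Ω R M → ℝ} (hq : IsLaw q)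
    (W : W3 Ω R M → T) : CH q (fun w => ((w.1.1.2 : ℕ) : ℤ)) W ≤ Real.log (4 * R + 1) := by
  obtain ⟨Z, hZ⟩ : ∃ Z : W3 Ω R M → Fin 1 → ℤ, Z = fun w _ => ((w.1.1.2 : ℕ) : ℤ) := ⟨_, rfl⟩
  have h1 := Pool.TQ.CH_cnt hq Z W (M := R) fun w _ i => by
    rw [hZ]
    show |((((w.1.1.2 : ℕ) : ℤ)) : ℝ)| ≤ R
    rw [Int.cast_natCast, Nat.abs_cast]
    exact_mod_cast w.1.1.2.2.le
  rw [Nat.cast_one, one_mul] at h1
  refine le_trans (CH_mono_left hq.nonneg (X' := Z) ?_) h1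
  intro w w' _ _ e
  have e1 : Z w = Z w' := (Prod.ext_iff.mp e).1
  rw [hZ] at e1
  exact congrFun e1 0

/-- The constants. -/
theorem log_M (X : ℕ) : Real.log ((2 ^ X : ℕ) : ℝ) = X * Real.log 2 ∧
    Real.log (4 * ((2 ^ X : ℕ) : ℝ) + 1) ≤ X * Real.log 2 + 2 := by
  have e1 : Real.log ((2 ^ X : ℕ) : ℝ) = X * Real.log 2 := by
    push_cast
    rw [Real.log_pow]
  refine ⟨e1, ?_⟩
  have h1 : (1 : ℝ) ≤ ((2 ^ X : ℕ) : ℝ) := by
    push_cast
    exact one_le_pow₀ (by norm_num)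
  have h2 : 4 * ((2 ^ X : ℕ) : ℝ) + 1 ≤ 5 * ((2 ^ X : ℕ) : ℝ) := by linarith
  have h3 : Real.log 5 ≤ 2 := by
    rw [Real.log_le_iff_le_exp (by norm_num)]
    have h1 := Real.exp_one_gt_d9
    have h2 : Real.exp 2 = Real.exp 1 * Real.exp 1 := by
      rw [← Real.exp_add]
      norm_num
    rw [h2]
    nlinarith
  have h4 := Real.log_le_log (by positivity) h2
  rw [Real.log_mul (by norm_num) (by positivity), e1] at h4
  linarith

/-- The loss. -/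
noncomputable def ls (R : ℕ) : ℝ := Real.log (4 * R + 1) + 4

theorem ls_pos (R : ℕ) : 4 ≤ ls R := by
  unfold ls
  have := Real.log_nonneg (show (1 : ℝ) ≤ 4 * R + 1 by
    have : (0 : ℝ) ≤ R := Nat.cast_nonneg R
    linarith)
  linarith

variable {H : QHd c k n} {R X : ℕ}

theorem dum_law (hR : 0 < R) (hp : IsLaw H.p) : IsLaw (dum H R (2 ^ X)).p :=
  u3_law hR (by positivity) hp

theorem dum_ok {C d : ℝ} (hR : 0 < R) (hC : 1 ≤ C) (ok : H.OkNS X C d) :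
    (dum H R (2 ^ X)).OkNS X C (d + ls R) := by
  have hM : 0 < 2 ^ X := by positivity
  have hMr : ((2 ^ X : ℕ) : ℝ) = 2 ^ X := by push_cast; rfl
  have hX : (1 : ℝ) ≤ 2 ^ X := one_le_pow₀ (by norm_num)
  have hp := ok.law
  have hl := dum_law (X := X) hR hp
  have h0 := hl.nonneg
  have hls := ls_pos R
  obtain ⟨lM, lM'⟩ := log_M X
  have hRr : (0 : ℝ) < R := by exact_mod_cast hR
  refine ⟨hl, fun w => ok.tau_r w.1.1.1, ?_, ?_, ?_, ?_, ?_, ?_, ?_, ?_, ?_⟩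
  · intro w j
    refine Fin.cases ?_ (fun j => ?_) j
    · show 0 ≤ ((w.1.2 : ℕ) : ℤ) ∧ ((w.1.2 : ℕ) : ℤ) < 2 ^ X
      exact ⟨by positivity, by exact_mod_cast w.1.2.2⟩
    · exact ok.y_r w.1.1.1 j
  · intro w u i
    refine Fin.cases ?_ (fun u => ?_) u
    · refine Fin.cases ?_ (fun i => ?_) i
      · show |((((w.1.1.2 : ℕ) : ℤ) : ℝ)) / R| ≤ C
        have h1 : (0 : ℝ) ≤ (((w.1.1.2 : ℕ) : ℤ) : ℝ) / R := by positivity
        rw [abs_of_nonneg h1]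
        refine le_trans ?_ hC
        rw [div_le_one hRr]
        exact_mod_cast w.1.1.2.2.le
      · show |(0 : ℝ)| ≤ C
        rw [abs_zero]
        linarith
    · refine Fin.cases ?_ (fun i => ?_) i
      · show |(0 : ℝ)| ≤ C
        rw [abs_zero]
        linarith
      · exact ok.E_b w.1.1.1 u i
  · intro w s i
    refine Fin.cases ?_ (fun i => ?_) i
    · show |(0 : ℝ)| ≤ C
      rw [abs_zero]
      linarith
    · exact ok.be_b w.1.1.1 s i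
  · intro w i
    have e1 := dum_hgt H R (2 ^ X) w
    rw [e1]
    refine Fin.cases ?_ (fun i => ?_) i
    · rw [Fin.cons_zero]
      refine (hz_le w).trans ?_
      rw [hMr]
      exact le_mul_of_one_le_left (by positivity) hC
    · rw [Fin.cons_succ]
      exact ok.hgt_b w.1.1.1 i
  · intro w w' i
    refine Fin.cases ?_ (fun i => ?_) i
    · have h1 := (dv_le w.1.1.2 w'.1.2).2.2
      have e1 : pol X ((dum H R (2 ^ X)).be ((dum H R (2 ^ X)).v w'))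
          ((dum H R (2 ^ X)).tau ((dum H R (2 ^ X)).th w)) 0 = 0 := by
        unfold pol
        refine Finset.sum_eq_zero fun s _ => ?_
        show (0 : ℝ) * _ * _ = 0
        ring
      have e2 : ∑ u, (dum H R (2 ^ X)).E ((dum H R (2 ^ X)).th w) u 0 *
          (((dum H R (2 ^ X)).y ((dum H R (2 ^ X)).v w') u : ℤ) : ℝ) =
          (((w.1.1.2 : ℕ) : ℝ)) / R * ((w'.1.2 : ℕ) : ℝ) := by
        rw [Fin.sum_univ_succ, Finset.sum_eq_zero fun u _ => by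
          show (0 : ℝ) * _ = 0
          ring, add_zero]
        show ((((w.1.1.2 : ℕ) : ℤ) : ℝ)) / R * ((((w'.1.2 : ℕ) : ℤ)) : ℝ) = _
        push_cast
        rfl
      rw [e1, e2]
      show |(((-(((w.1.1.2 : ℕ) : ℤ) * ((w'.1.2 : ℕ) : ℤ) / (R : ℤ)) : ℤ)) : ℝ) -
        (0 - (((w.1.1.2 : ℕ) : ℝ)) / R * ((w'.1.2 : ℕ) : ℝ) + 0 + 0)| ≤ C
      refine le_trans (le_of_eq ?_) (h1.trans hC)
      push_cast
      congr 1
      ring
    · have e2 : ∑ u, (dum H R (2 ^ X)).E ((dum H R (2 ^ X)).th w) u i.succ *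
          (((dum H R (2 ^ X)).y ((dum H R (2 ^ X)).v w') u : ℤ) : ℝ) =
          ∑ u, H.E (H.th w.1.1.1) u i * H.y (H.v w'.1.1.1) u := by
        rw [Fin.sum_univ_succ]
        have : (dum H R (2 ^ X)).E ((dum H R (2 ^ X)).th w) 0 i.succ = 0 := rfl
        rw [this, zero_mul, zero_add]
        rfl
      rw [e2]
      exact ok.g_eq w.1.1.1 w'.1.1.1 i
  · -- time and line
    have h1 := ok.h0
    have g1 : CH (dum H R (2 ^ X)).p (dum H R (2 ^ X)).th (dum H R (2 ^ X)).b ≤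
        CH H.p H.th H.b + Real.log (4 * R + 1) := by
      refine (CH_le_add h0 _ (fun w => H.th w.1.1.1) _).trans (add_le_add ?_ ?_)
      · exact (u3_f (p := H.p) hR hM H.th H.b).le
      · refine le_trans (CH_mono_left h0 (X' := fun w => ((w.1.1.2 : ℕ) : ℤ))
          fun w w' _ _ e => ?_) (co_cnt hl _)
        obtain ⟨e1, e2⟩ := Prod.ext_iff.mp e
        exact Prod.ext (Prod.ext_iff.mp e2).1 e1
    have g2 : CH H.p H.th H.line ≤
        CH (dum H R (2 ^ X)).p (dum H R (2 ^ X)).th (dum H R (2 ^ X)).line := by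
      refine (u3_ge hR hM hp H.th H.line (W := (dum H R (2 ^ X)).line) fun w w' _ _ e => ?_).trans
        (CH_mono_left h0 fun w w' _ _ e => (Prod.ext_iff.mp (Prod.ext_iff.mp e).1).1)
      obtain ⟨e1, e2⟩ := Prod.ext_iff.mp e
      unfold cu at e1
      simp only [Prod.mk.injEq] at e1
      obtain ⟨e3, e4⟩ := Prod.ext_iff.mp e2
      obtain ⟨e5, e6⟩ := Prod.ext_iff.mp e4
      simp only at e3 e4 e5 e6
      refine Prod.ext ?_ (Prod.ext (Prod.ext ?_ ?_) ?_)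
      · show (Fin.cons ((w.2 : ℕ) : ℤ) (H.nu w.1.1.1) : Fin (c + 1) → ℤ) =
          Fin.cons ((w'.2 : ℕ) : ℤ) (H.nu w'.1.1.1)
        have e7 : H.nu w.1.1.1 = H.nu w'.1.1.1 := e3
        rw [e7, e1.1]
      · exact e5
      · show ((w.1.2 : ℕ) : ℤ) = ((w'.1.2 : ℕ) : ℤ)
        rw [e1.2.1]
      · exact e6
    unfold ls
    linarith
  · -- the height and the label
    have h1 := ok.h2
    have g1 : CH (dum H R (2 ^ X)).p (dum H R (2 ^ X)).hgt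
        (fun w => ((dum H R (2 ^ X)).th w, (dum H R (2 ^ X)).b w)) ≤
        CH H.p H.hgt (fun ω => (H.th ω, H.b ω)) + Real.log (4 * ((2 ^ X : ℕ) : ℝ) + 1) := by
      refine (CH_le_add h0 _ (fun w => H.hgt w.1.1.1) _).trans (add_le_add ?_ ?_)
      · refine u3_le hR hM hp H.hgt (fun ω => (H.th ω, H.b ω)) fun w w' _ _ e => ?_
        obtain ⟨e1, e2⟩ := Prod.ext_iff.mp e
        exact Prod.ext (Prod.ext_iff.mp e1).1 e2
      · refine le_trans (CH_mono_left h0 (X' := hz) fun w w' _ _ e => ?_) (hz_cnt hl _)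
        obtain ⟨e1, e2⟩ := Prod.ext_iff.mp e
        have e1 : hz w = hz w' := e1
        have e2 : H.hgt w.1.1.1 = H.hgt w'.1.1.1 := (Prod.ext_iff.mp e2).1
        refine (dum_hgt H R _ w).trans (Eq.trans ?_ (dum_hgt H R _ w').symm)
        rw [e1, e2]
    have g2 : CH H.p H.hgt (fun ω => (H.v ω, (H.th ω, H.b ω))) + Real.log ((2 ^ X : ℕ) : ℝ) ≤
        CH (dum H R (2 ^ X)).p (dum H R (2 ^ X)).hgt (fun w => ((dum H R (2 ^ X)).v w,
          ((dum H R (2 ^ X)).th w, (dum H R (2 ^ X)).b w))) := by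
      have e1 := CH_chain h0 (hz : W3 H.Ω R (2 ^ X) → ℤ) (fun w => H.hgt w.1.1.1)
        (fun w => ((dum H R (2 ^ X)).v w, ((dum H R (2 ^ X)).th w, (dum H R (2 ^ X)).b w)))
      have e2 : CH (dum H R (2 ^ X)).p (fun w => (hz w, H.hgt w.1.1.1))
          (fun w => ((dum H R (2 ^ X)).v w, ((dum H R (2 ^ X)).th w, (dum H R (2 ^ X)).b w))) ≤
          CH (dum H R (2 ^ X)).p (dum H R (2 ^ X)).hgt (fun w => ((dum H R (2 ^ X)).v w,
          ((dum H R (2 ^ X)).th w, (dum H R (2 ^ X)).b w))) := by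
        refine CH_mono_left h0 fun w w' _ _ e => ?_
        have e3 := ((dum_hgt H R _ w).symm.trans (Prod.ext_iff.mp e).1).trans (dum_hgt H R _ w')
        rw [Fin.cons_inj] at e3
        exact Prod.ext e3.1 e3.2
      rw [e1] at e2
      refine le_trans (add_le_add ?_ ?_) e2
      · refine u3_ge hR hM hp H.hgt (fun ω => (H.v ω, (H.th ω, H.b ω))) fun w w' _ _ e => ?_
        obtain ⟨e1, e2⟩ := Prod.ext_iff.mp e
        unfold cu at e1
        simp only [Prod.mk.injEq] at e1 e2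
        refine Prod.ext (Prod.ext e2.1 ?_) (Prod.ext (Prod.ext e2.2.1 ?_) e2.2.2)
        · show ((w.1.2 : ℕ) : ℤ) = ((w'.1.2 : ℕ) : ℤ)
          rw [e1.2.1]
        · show ((w.1.1.2 : ℕ) : ℤ) = ((w'.1.1.2 : ℕ) : ℤ)
          rw [e1.2.2]
      · refine u3_h hR hM hp (fun x => (x.2, (x.1.2, (H.hgt x.1.1, (H.v x.1.1,
          (H.th x.1.1, H.b x.1.1)))))) ?_ ?_
        · intro w w' _ _ e
          simp only [Prod.mk.injEq] at e
          refine Prod.ext e.2.2.1 (Prod.ext (Prod.ext e.2.2.2.1 ?_)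
            (Prod.ext (Prod.ext e.2.2.2.2.1 ?_) e.2.2.2.2.2))
          · show ((w.1.2 : ℕ) : ℤ) = ((w'.1.2 : ℕ) : ℤ)
            rw [e.1]
          · show ((w.1.1.2 : ℕ) : ℤ) = ((w'.1.1.2 : ℕ) : ℤ)
            rw [e.2.1]
        · intro w w' e1 e2
          simp only [Prod.mk.injEq] at e1
          exact hz_inj e1.2.1 e1.1 e2
    unfold ls
    have := Real.log_nonneg (show (1 : ℝ) ≤ 4 * R + 1 by linarith)
    linarith
  · -- the positions
    have h1 := ok.y_f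
    have e1 := CH_chain h0 (fun w : W3 H.Ω R (2 ^ X) => ((w.1.2 : ℕ) : ℤ))
      (fun w => H.y (H.v w.1.1.1)) (dum H R (2 ^ X)).b
    have e2 : CH (dum H R (2 ^ X)).p (fun w : W3 H.Ω R (2 ^ X) => (((w.1.2 : ℕ) : ℤ),
        H.y (H.v w.1.1.1))) (dum H R (2 ^ X)).b ≤ CH (dum H R (2 ^ X)).p
          (fun w => (dum H R (2 ^ X)).y ((dum H R (2 ^ X)).v w)) (dum H R (2 ^ X)).b := by
      refine CH_mono_left h0 fun w w' _ _ e => ?_
      have e3 : (Fin.cons ((w.1.2 : ℕ) : ℤ) (H.y (H.v w.1.1.1)) : Fin (k + 1) → ℤ) =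
        Fin.cons ((w'.1.2 : ℕ) : ℤ) (H.y (H.v w'.1.1.1)) := (Prod.ext_iff.mp e).1
      rw [Fin.cons_inj] at e3
      exact Prod.ext e3.1 e3.2
    have g1 : CH H.p (fun ω => H.y (H.v ω)) H.b ≤ CH (dum H R (2 ^ X)).p
        (fun w => H.y (H.v w.1.1.1)) (dum H R (2 ^ X)).b :=
      (u3_f (p := H.p) hR hM (fun ω => H.y (H.v ω)) H.b).ge
    have g2 : Real.log ((2 ^ X : ℕ) : ℝ) ≤ CH (dum H R (2 ^ X)).p
        (fun w : W3 H.Ω R (2 ^ X) => ((w.1.2 : ℕ) : ℤ))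
        (fun w => (H.y (H.v w.1.1.1), (dum H R (2 ^ X)).b w)) := by
      refine u3_y hR hM hp (fun x => (H.y (H.v x.1), H.b x.1)) (fun w w' _ _ e => e) ?_
      intro w w' _ e
      exact Fin.ext (by exact_mod_cast e)
    have e3 : ((k + 1 : ℕ) : ℝ) * X * Real.log 2 = k * X * Real.log 2 + X * Real.log 2 := by
      push_cast
      ring
    rw [e3]
    exact le_trans (by linarith) ((add_le_add g1 g2).trans (e1.ge.trans e2))
  · have h1 := ok.t_f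
    have g1 : CH H.p (fun ω => H.tau (H.th ω)) H.b = CH (dum H R (2 ^ X)).p
        (fun w => (dum H R (2 ^ X)).tau ((dum H R (2 ^ X)).th w)) (dum H R (2 ^ X)).b :=
      (u3_f (p := H.p) hR hM (fun ω => H.tau (H.th ω)) H.b).symm
    rw [← g1]
    linarith

/-- The height. -/
def dZ {Ω : Type} {R M : ℕ} (Z : Ω → Fin c → ℤ) (w : W3 Ω R M) : Fin (c + 1) → ℤ :=
  Fin.cons (hz w) (Z w.1.1.1)

/-- **The hypotheses of the larger picture.** -/
theorem dum_H {ρ β σ : Type} {S : H.Ω → ρ} {Wd : H.Ω → β} {Z : H.Ω → Fin c → ℤ}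
    {Bs : H.Ω → σ} {C d d' h ϖ ϖ' : ℝ} (hR : 0 < R) (hC : 1 ≤ C)
    (hH : DcH H S Wd Z Bs X C d h ϖ) (hϖ : 0 ≤ ϖ) (hϖ' : 0 < ϖ') {N : ℕ} (hN : 0 < N) (hc : h ≤ c)
    (hd : d + ls R + (1 / ϖ' / N + 1 / ϖ' * ϖ) * (c * Real.log (4 * (C * 2 ^ X) + 1)) +
      Real.log (N + 1) ≤ d') :
    DcH (dum H R (2 ^ X)) (fun w => S w.1.1.1) (fun w => Wd w.1.1.1) (dZ Z) (fun w => Bs w.1.1.1)
      X C d' h ϖ' := by
  have hM : 0 < 2 ^ X := by positivity
  have hMr : ((2 ^ X : ℕ) : ℝ) = 2 ^ X := by push_cast; rfl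
  have hX : (1 : ℝ) ≤ 2 ^ X := one_le_pow₀ (by norm_num)
  have hp := hH.ok.law
  have hl := dum_law (X := X) hR hp
  have h0 := hl.nonneg
  have hls := ls_pos R
  obtain ⟨lM, lM'⟩ := log_M X
  have hC0 : 0 ≤ C := by linarith
  have hG : 0 ≤ (c : ℝ) * Real.log (4 * (C * 2 ^ X) + 1) := by
    have h1 : 0 ≤ Real.log (4 * (C * 2 ^ X) + 1) := Real.log_nonneg (by
      have : (0 : ℝ) ≤ C * 2 ^ X := by positivity
      linarith)
    positivity
  have hQ : 0 ≤ (1 / ϖ' / N + 1 / ϖ' * ϖ) * (c * Real.log (4 * (C * 2 ^ X) + 1)) := by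
    positivity
  have hN1 : 0 ≤ Real.log (N + 1) := Real.log_nonneg (by
    have : (0 : ℝ) ≤ N := Nat.cast_nonneg N
    linarith)
  have hd1 : d + ls R ≤ d' := by linarith
  refine ⟨Pool.FS21.okd_mono (dum_ok hR hC hH.ok) hd1, ?_, ?_, ?_, ?_, ?_, ?_, ?_, ?_⟩
  · intro w i
    refine Fin.cases ?_ (fun i => ?_) i
    · show |(hz w : ℝ)| ≤ _
      refine (hz_le w).trans ?_
      rw [hMr]
      exact le_mul_of_one_le_left (by positivity) hC
    · exact hH.Z_b w.1.1.1 i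
  · intro w i
    refine Fin.cases ?_ (fun i => ?_) i
    · show |((((w.2 : ℕ) : ℤ)) : ℝ)| ≤ _
      rw [Int.cast_natCast, Nat.abs_cast]
      have h1 : ((w.2 : ℕ) : ℝ) ≤ ((2 ^ X : ℕ) : ℝ) := by exact_mod_cast w.2.2.le
      rw [hMr] at h1
      exact h1.trans (le_mul_of_one_le_left (by positivity) hC)
    · exact hH.nu_b w.1.1.1 i
  · intro w w' hw hw' e1 e2 e3 i
    have e4 := dum_hgt H R _ w
    have e5 := dum_hgt H R _ w'
    rw [e4, e5]
    refine Fin.cases ?_ (fun i => ?_) i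
    · show |((hz w : ℝ) - hz w') - ((hz w : ℝ) - hz w')| ≤ C
      rw [sub_self, abs_zero]
      exact hC0
    · exact hH.rel _ _ (u3_pos hw) (u3_pos hw') e1 (Prod.ext_iff.mp e2).1 e3 i
  · have h1 := hH.vd
    refine le_trans ?_ ((add_le_add h1 (by linarith : (0 : ℝ) ≤ ls R)).trans hd1)
    rw [add_zero]
    refine u3_le hR hM hp Wd (fun ω => (H.th ω, (H.v ω, H.b ω))) fun w w' _ _ e => ?_
    obtain ⟨e1, e2⟩ := Prod.ext_iff.mp e
    obtain ⟨e3, e4⟩ := Prod.ext_iff.mp e2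
    exact Prod.ext (Prod.ext_iff.mp e1).1 (Prod.ext (Prod.ext_iff.mp e3).1 e4)
  · intro w w' hw hw' e
    obtain ⟨e1, e2⟩ := Prod.ext_iff.mp e
    obtain ⟨e3, e4⟩ := Prod.ext_iff.mp e2
    exact hH.SY _ _ (u3_pos hw) (u3_pos hw') (Prod.ext e1 (Prod.ext (Prod.ext_iff.mp e3).1 e4))
  · intro w w' hw hw' e
    obtain ⟨e1, e2⟩ := Prod.ext_iff.mp e
    obtain ⟨e3, e4⟩ := Prod.ext_iff.mp e2
    exact hH.BY _ _ (u3_pos hw) (u3_pos hw') (Prod.ext e1 (Prod.ext (Prod.ext_iff.mp e3).1 e4))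
  · -- the base data
    have h1 := hH.few
    rw [MI_eq hp.nonneg] at h1
    refine (MI_eq h0 _ _ _).le.trans ?_
    have g1 : CH (dum H R (2 ^ X)).p (dZ Z) (fun w => Bs w.1.1.1) ≤
        CH H.p Z Bs + Real.log (4 * ((2 ^ X : ℕ) : ℝ) + 1) := by
      refine (CH_le_add h0 _ (fun w => Z w.1.1.1) _).trans (add_le_add ?_ ?_)
      · exact u3_le hR hM hp Z Bs fun w w' _ _ e => e
      · refine le_trans (CH_mono_left h0 (X' := hz) fun w w' _ _ e => ?_) (hz_cnt hl _)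
        obtain ⟨e1, e2⟩ := Prod.ext_iff.mp e
        have e1 : hz w = hz w' := e1
        have e2 : Z w.1.1.1 = Z w'.1.1.1 := (Prod.ext_iff.mp e2).1
        unfold dZ
        rw [e1, e2]
    have g2 : CH H.p Z (fun ω => ((Wd ω, (H.th ω, H.b ω)), Bs ω)) +
        Real.log ((2 ^ X : ℕ) : ℝ) ≤ CH (dum H R (2 ^ X)).p (dZ Z)
          (fun w => ((Wd w.1.1.1, ((dum H R (2 ^ X)).th w, (dum H R (2 ^ X)).b w)),
            Bs w.1.1.1)) := by
      have e1 := CH_chain h0 (hz : W3 H.Ω R (2 ^ X) → ℤ) (fun w => Z w.1.1.1)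
        (fun w => ((Wd w.1.1.1, ((dum H R (2 ^ X)).th w, (dum H R (2 ^ X)).b w)), Bs w.1.1.1))
      have e2 : CH (dum H R (2 ^ X)).p (fun w => (hz w, Z w.1.1.1))
          (fun w => ((Wd w.1.1.1, ((dum H R (2 ^ X)).th w, (dum H R (2 ^ X)).b w)),
            Bs w.1.1.1)) ≤ CH (dum H R (2 ^ X)).p (dZ Z)
          (fun w => ((Wd w.1.1.1, ((dum H R (2 ^ X)).th w, (dum H R (2 ^ X)).b w)),
            Bs w.1.1.1)) := by
        refine CH_mono_left h0 fun w w' _ _ e => ?_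
        have e3 : (Fin.cons (hz w) (Z w.1.1.1) : Fin (c + 1) → ℤ) =
          Fin.cons (hz w') (Z w'.1.1.1) := (Prod.ext_iff.mp e).1
        rw [Fin.cons_inj] at e3
        exact Prod.ext e3.1 e3.2
      refine le_trans (add_le_add ?_ ?_) (e1.ge.trans e2)
      · refine u3_ge hR hM hp Z (fun ω => ((Wd ω, (H.th ω, H.b ω)), Bs ω)) fun w w' _ _ e => ?_
        obtain ⟨e1, e2⟩ := Prod.ext_iff.mp e
        unfold cu at e1
        simp only [Prod.mk.injEq] at e1 e2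
        refine Prod.ext (Prod.ext e2.1.1 (Prod.ext (Prod.ext e2.1.2.1 ?_) e2.1.2.2)) e2.2
        show ((w.1.1.2 : ℕ) : ℤ) = ((w'.1.1.2 : ℕ) : ℤ)
        rw [e1.2.2]
      · refine u3_h hR hM hp (fun x => (x.2, (x.1.2, (Z x.1.1, ((Wd x.1.1,
          (H.th x.1.1, H.b x.1.1)), Bs x.1.1))))) ?_ ?_
        · intro w w' _ _ e
          simp only [Prod.mk.injEq] at e
          refine Prod.ext e.2.2.1 (Prod.ext (Prod.ext e.2.2.2.1.1 (Prod.ext
            (Prod.ext e.2.2.2.1.2.1 ?_) e.2.2.2.1.2.2)) e.2.2.2.2)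
          show ((w.1.1.2 : ℕ) : ℤ) = ((w'.1.1.2 : ℕ) : ℤ)
          rw [e.2.1]
        · intro w w' e1 e2
          simp only [Prod.mk.injEq] at e1
          exact hz_inj e1.2.1 e1.1 e2
    have e3 := sub_le_sub g1 g2
    refine e3.trans ?_
    unfold ls at hd1 hls
    linarith
  · -- the row
    intro G hGm hG0
    have hql : IsLaw (cond (dum H R (2 ^ X)).p G True) :=
      ⟨cond_nonneg h0 G True, sum_cond _ G (ne_of_gt hG0)⟩
    have him : Pool.POT.Im (dum H R (2 ^ X)).p H.p (fun w : W3 H.Ω R (2 ^ X) => w.1.1.1) :=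
      ((Pool.POT.Im.comp (f := Prod.fst) (g := Prod.fst) (un_psh hR H.p)
        (un_psh hM (un R H.p))).comp (g := Prod.fst) (un_psh hM (un (2 ^ X) (un R H.p))))
    have hden : ∀ ω, Pool.TQ.mg (cond (dum H R (2 ^ X)).p G True)
        (fun w : W3 H.Ω R (2 ^ X) => w.1.1.1) ω ≤ 1 / ϖ' * H.p ω := by
      refine Pool.TQ.mg_le him fun w => (Pool.TQ.cond_le h0 w).trans ?_
      refine mul_le_mul_of_nonneg_right ?_ (h0 w)
      exact one_div_le_one_div_of_le hϖ' hGm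
    have e1 := (Pool.TQ.im_mg (cond (dum H R (2 ^ X)).p G True)
      (fun w : W3 H.Ω R (2 ^ X) => w.1.1.1)).CH Z (fun ω => (Wd ω, S ω))
    have hd0 : 0 ≤ d := (CH_nonneg hp.nonneg _ _).trans hH.vd
    have hl2 : 0 ≤ Real.log 2 := Real.log_nonneg (by norm_num)
    have hch : 0 ≤ (c - h) * X * Real.log 2 := by
      have : 0 ≤ (c : ℝ) - h := by linarith
      positivity
    have e2 := Pool.TQ.dens_up hp (Pool.TQ.mg_law hql _) (by positivity) hden hϖ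
      (b := (c - h) * X * Real.log 2 + d) (by linarith) hG Z (fun ω => (Wd ω, S ω)) hH.nf
      (fun q' hq' _ => Pool.TQ.CH_cnt hq' Z (fun ω => (Wd ω, S ω)) (fun ω _ i => hH.Z_b ω i)) hN
    have e3 : CH (cond (dum H R (2 ^ X)).p G True) (dZ Z) (fun w => (Wd w.1.1.1, S w.1.1.1)) ≤
        CH (cond (dum H R (2 ^ X)).p G True) (fun w => Z w.1.1.1)
          (fun w => (Wd w.1.1.1, S w.1.1.1)) + Real.log (4 * ((2 ^ X : ℕ) : ℝ) + 1) := by
      refine (CH_le_add hql.nonneg _ (fun w => Z w.1.1.1) _).trans (add_le_add le_rfl ?_)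
      refine le_trans (CH_mono_left hql.nonneg (X' := hz) fun w w' _ _ e => ?_) (hz_cnt hql _)
      obtain ⟨e1, e2⟩ := Prod.ext_iff.mp e
      have e1 : hz w = hz w' := e1
      have e2 : Z w.1.1.1 = Z w'.1.1.1 := (Prod.ext_iff.mp e2).1
      unfold dZ
      rw [e1, e2]
    refine e3.trans ((add_le_add (e1.le.trans e2) lM').trans ?_)
    have e4 : (((c + 1 : ℕ) : ℝ) - h) * X * Real.log 2 = (c - h) * X * Real.log 2 +
        X * Real.log 2 := by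
      push_cast
      ring
    rw [e4]
    linarith

end Pool.V0D
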