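import Pool.Agent.H25.V0D.Dum

/-!
# The covector with a pivot, for one, two and three coordinates

`QhLam c g`: the conclusion of `qh_lam` of 24 for `c` coordinates, the numbers of the coordinate `i`
are those of `g i`. `lam_dn`: from `c + 1` coordinates to `c` coordinates.
-/

set_option autoImplicit false

namespace Pool.V0D

open Finset Real
open Pool.Agent.H49.Ent Pool.Agent.H32.Dense Pool.STK
open Pool.FTM (un un_isLaw un_psh CH_un CH_un_snd un_pos)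
open Pool.K2S (Pe)
open Pool.KVA (MI)
open Pool.BD64 (QHd pol)
open Pool.DR24 (zt3 bs3 D3H qh_lam)
open Pool.FS21 (ex_pow)
open Pool.DR24

/-- **The conclusion for `c` coordinates.** -/
def QhLam (c : ℕ) (g : Fin c → Fin 3) (n : ℕ) (h a₂ a₁ σ : ℝ) : Prop :=
  ∀ k : ℕ, ∃ io ϖ m₀ : ℝ, 0 < io ∧ 0 < ϖ ∧ 0 < m₀ ∧ ∀ C : ℝ, 1 ≤ C → ∃ X0 : ℕ,
    ∀ (H : QHd c k n) (ρ β σ' : Type) (S : H.Ω → ρ) (Wd : H.Ω → β) (Z : H.Ω → Fin c → ℤ)
      (Bs : H.Ω → σ') (X : ℕ), X0 ≤ X → DcH H S Wd Z Bs X C (io * X) h ϖ →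
      ∃ (i : Fin c) (lam : (Fin c → ℤ) × (H.Vt × H.B) → Fin c → ℝ)
        (lamP : (Fin c → ℤ) × σ' → Fin c → ℝ)
        (ep : (Fin c → ℤ) × (H.Vt × H.B) → Fin (n + 1) → Fin k → ℝ) (G : H.Ω → Prop),
        m₀ ≤ Pe H.p G ∧ (∀ ω, G ω → lam (H.line ω) i = 1) ∧ (∀ x l, i < l → lam x l = 0) ∧
        (∀ x l, |lam x l| ≤ (2 : ℝ) ^ (zt3 a₂ a₁ (g i) * X)) ∧
        (∀ z a u, |ep z a u| ≤ (2 : ℝ) ^ ((a₂ + σ) * X)) ∧
        (∀ ω, G ω → lam (H.line ω) = lamP (Z ω, Bs ω)) ∧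
        (∀ ω, G ω → ∀ u, |∑ l, lam (H.line ω) l * H.E (H.th ω) u l -
          ∑ a, ep (H.line ω) a u * ((H.tau (H.th ω) : ℝ) / 2 ^ X) ^ (a : ℕ)| ≤
            (2 : ℝ) ^ ((σ - bs3 h a₂ a₁ (g i)) * X))

theorem lam_3 (n : ℕ) (hn : 1 ≤ n) {h a₂ a₁ σ : ℝ} (hh : 0 < h) (hh1 : h ≤ 1) (ha : 0 < a₁)
    (h12 : a₁ < a₂) (h2 : a₂ < h / 32) (hσ : 0 < σ) : QhLam 3 id n h a₂ a₁ σ := by
  intro k
  obtain ⟨io, ϖ, m₀, hio, hϖ, hm₀, H1⟩ := qh_lam k n hn hh hh1 ha h12 h2 hσ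
  refine ⟨io, ϖ, m₀, hio, hϖ, hm₀, fun C hC => ?_⟩
  obtain ⟨X0, H1⟩ := H1 C hC
  refine ⟨X0, fun H ρ β σ' S Wd Z Bs X hX hH => ?_⟩
  have hf := hH.few
  rw [Pool.AVG71.MI_eq hH.ok.law.nonneg] at hf
  exact H1 H ρ β σ' S Wd Z Bs X hX ⟨hH.ok, hH.Z_b, hH.nu_b, hH.rel, hH.vd, hH.SY, hH.BY, hf,
    fun G g1 g2 => hH.nf G g1 g2⟩

/-- **From `c + 1` coordinates to `c` coordinates.** -/
theorem lam_dn {c : ℕ} {g : Fin (c + 1) → Fin 3} {n : ℕ} {h a₂ a₁ σ : ℝ}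
    (hσ : ∀ i, σ < bs3 h a₂ a₁ i) (hc : h ≤ c) (HQ : QhLam (c + 1) g n h a₂ a₁ σ) :
    QhLam c (fun i => g i.succ) n h a₂ a₁ σ := by
  classical
  intro k
  obtain ⟨io', ϖ', m₀, hio', hϖ', hm₀, H1⟩ := HQ (k + 1)
  obtain ⟨R, hR⟩ := exists_nat_gt (1 / m₀)
  have hRr : (0 : ℝ) < R := lt_trans (by positivity) hR
  have hR0 : 0 < R := by exact_mod_cast hRr
  have hRm : 1 / (R : ℝ) < m₀ := by
    rw [div_lt_iff₀ hRr]
    rw [div_lt_iff₀ hm₀] at hR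
    linarith
  obtain ⟨N, hN⟩ := exists_nat_gt (16 * c / (ϖ' * io'))
  have hNr : (0 : ℝ) < N := lt_of_le_of_lt (by positivity) hN
  have hN0 : 0 < N := by exact_mod_cast hNr
  obtain ⟨ϖ, hϖ⟩ : ∃ ϖ : ℝ, ϖ = io' * ϖ' / (16 * (c + 1)) := ⟨_, rfl⟩
  have hϖ0 : 0 < ϖ := by rw [hϖ]; positivity
  refine ⟨io' / 4, ϖ, m₀, by positivity, hϖ0, hm₀, fun C hC => ?_⟩
  obtain ⟨X1, H1⟩ := H1 C hC
  obtain ⟨s₀, hs₀⟩ : ∃ s₀ : ℝ, 0 < s₀ ∧ ∀ i, s₀ ≤ bs3 h a₂ a₁ i - σ := by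
    refine ⟨min (bs3 h a₂ a₁ 0 - σ) (min (bs3 h a₂ a₁ 1 - σ) (bs3 h a₂ a₁ 2 - σ)), ?_, ?_⟩
    · refine lt_min ?_ (lt_min ?_ ?_) <;>
      linarith [hσ 0, hσ 1, hσ 2]
    · intro i
      fin_cases i
      · exact min_le_left _ _
      · exact (min_le_right _ _).trans (min_le_left _ _)
      · exact (min_le_right _ _).trans (min_le_right _ _)
  obtain ⟨hs0, hs1⟩ := hs₀
  obtain ⟨X2, hX2⟩ := ex_pow (a := s₀) (b := 3 * R) hs0
  obtain ⟨X3, hX3⟩ := exists_nat_ge (Real.log (5 * C))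
  obtain ⟨X4, hX4⟩ := exists_nat_ge ((ls R + Real.log (N + 1)) / (io' / 4))
  refine ⟨max (max X1 X2) (max X3 X4), fun H ρ β σ' S Wd Z Bs X hX hH => ?_⟩
  have b1 : X1 ≤ X := (le_max_left _ _).trans ((le_max_left _ _).trans hX)
  have b2 : X2 ≤ X := (le_max_right _ _).trans ((le_max_left _ _).trans hX)
  have b3 : X3 ≤ X := (le_max_left _ _).trans ((le_max_right _ _).trans hX)
  have b4 : X4 ≤ X := (le_max_right _ _).trans ((le_max_right _ _).trans hX)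
  have hX0 : (0 : ℝ) ≤ X := Nat.cast_nonneg X
  replace hX2 := hX2 X b2
  have hX3' : Real.log (5 * C) ≤ X := hX3.trans (by exact_mod_cast b3)
  have hX4' : ls R + Real.log (N + 1) ≤ io' / 4 * X := by
    have h1 := hX4.trans (show (X4 : ℝ) ≤ X by exact_mod_cast b4)
    rw [div_le_iff₀ (by positivity)] at h1
    linarith
  have hp := hH.ok.law
  have hM : 0 < 2 ^ X := by positivity
  have h2X : (1 : ℝ) ≤ 2 ^ X := one_le_pow₀ (by norm_num)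
  -- the numbers
  have hlog : Real.log (4 * (C * 2 ^ X) + 1) ≤ 2 * X := by
    have h1 : 4 * (C * 2 ^ X) + 1 ≤ 5 * C * 2 ^ X := by
      have : 1 ≤ C * 2 ^ X := one_le_mul_of_one_le_of_one_le hC h2X
      linarith
    have h2 := Real.log_le_log (by positivity) h1
    rw [Real.log_mul (by positivity) (by positivity), Real.log_pow] at h2
    have h3 : Real.log 2 ≤ 1 := by
      have := Real.log_two_lt_d9
      linarith
    have h4 : (X : ℝ) * Real.log 2 ≤ X * 1 := mul_le_mul_of_nonneg_left h3 hX0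
    linarith
  have hnum : io' / 4 * X + ls R + (1 / ϖ' / N + 1 / ϖ' * ϖ) *
      (c * Real.log (4 * (C * 2 ^ X) + 1)) + Real.log (N + 1) ≤ io' * X := by
    have h1 : 1 / ϖ' / N * c ≤ io' / 16 := by
      rw [div_lt_iff₀ (by positivity)] at hN
      rw [div_mul_eq_mul_div, div_le_iff₀ hNr, div_mul_eq_mul_div, div_le_iff₀ hϖ']
      nlinarith
    have h2 : 1 / ϖ' * ϖ * c ≤ io' / 16 := by
      have e1 : 1 / ϖ' * ϖ * c = io' / 16 * (c / (c + 1)) := by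
        rw [hϖ]
        field_simp
      rw [e1]
      refine mul_le_of_le_one_right (by positivity) ?_
      rw [div_le_one (by positivity)]
      linarith
    have h3 : (1 / ϖ' / N + 1 / ϖ' * ϖ) * (c * Real.log (4 * (C * 2 ^ X) + 1)) ≤
        (1 / ϖ' / N * c + 1 / ϖ' * ϖ * c) * (2 * X) := by
      have e1 : (1 / ϖ' / N + 1 / ϖ' * ϖ) * (c * Real.log (4 * (C * 2 ^ X) + 1)) =
        (1 / ϖ' / N * c + 1 / ϖ' * ϖ * c) * Real.log (4 * (C * 2 ^ X) + 1) := by ring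
      rw [e1]
      exact mul_le_mul_of_nonneg_left hlog (by positivity)
    have h4 : (1 / ϖ' / N * c + 1 / ϖ' * ϖ * c) * (2 * X) ≤ (io' / 16 + io' / 16) * (2 * X) :=
      mul_le_mul_of_nonneg_right (by linarith) (by positivity)
    have h5 : (io' / 16 + io' / 16) * (2 * X) = io' / 4 * X := by ring
    have h6 : 0 ≤ io' * X := by positivity
    linarith
  have hD := dum_H (R := R) (X := X) hR0 hC hH hϖ0.le hϖ' hN0 hc hnum
  obtain ⟨i, lam, lamP, ep, G, g1, g2, g3, g4, g5, g6, g7⟩ := H1 _ _ _ _ _ _ _ _ X b1 hD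
  obtain ⟨x₂, g1⟩ := Pe_un (p := un (2 ^ X) (un R H.p)) hM G g1
  obtain ⟨x₁, g1⟩ := Pe_un (p := un R H.p) hM (fun w => G (w, x₂)) g1
  -- the pivot is not the new coordinate
  have hsm : ∀ i : Fin (c + 1), 2 * (2 : ℝ) ^ ((σ - bs3 h a₂ a₁ (g i)) * X) < 1 / R := by
    intro i
    have h1 : (2 : ℝ) ^ ((σ - bs3 h a₂ a₁ (g i)) * X) ≤ (2 : ℝ) ^ (-(s₀ * X)) := by
      refine Real.rpow_le_rpow_of_exponent_le (by norm_num) ?_
      have := mul_le_mul_of_nonneg_right (hs1 (g i)) hX0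
      linarith
    have h2 : (2 : ℝ) ^ (-(s₀ * X)) * (3 * R) ≤ 1 := by
      have h3 := mul_le_mul_of_nonneg_left hX2 (show (0 : ℝ) ≤ 2 ^ (-(s₀ * X)) by positivity)
      rw [← Real.rpow_add (by norm_num)] at h3
      simpa using h3
    have h3 : (0 : ℝ) < 2 ^ (-(s₀ * X)) := by positivity
    rw [lt_div_iff₀ hRr]
    have h4 : 2 * (2 : ℝ) ^ ((σ - bs3 h a₂ a₁ (g i)) * X) * R ≤ 2 * (2 : ℝ) ^ (-(s₀ * X)) * R :=
      mul_le_mul_of_nonneg_right (mul_le_mul_of_nonneg_left h1 (by norm_num)) hRr.le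
    have h5 : 0 < (2 : ℝ) ^ (-(s₀ * X)) * R := by positivity
    linarith
  have key : ∀ (ω : H.Ω) (x y : Fin R), i = 0 → G (((ω, x), x₁), x₂) → G (((ω, y), x₁), x₂) →
      x = y := by
    intro ω x y hi hx hy
    have ev : ∀ z : Fin R, G (((ω, z), x₁), x₂) →
        |((z : ℕ) : ℝ) / R - ∑ a, ep ((dum H R (2 ^ X)).line (((ω, x), x₁), x₂)) a 0 *
          ((H.tau (H.th ω) : ℝ) / 2 ^ X) ^ (a : ℕ)| ≤
            (2 : ℝ) ^ ((σ - bs3 h a₂ a₁ (g i)) * X) := by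
      intro z hz
      have h1 := g7 _ hz 0
      have h2 := g2 _ hz
      rw [Fin.sum_univ_succ, Finset.sum_eq_zero fun l _ => by
        show _ * (0 : ℝ) = 0
        ring, add_zero] at h1
      rw [hi] at h2
      rw [h2, one_mul] at h1
      exact h1
    have h1 := ev x hx
    have h2 := ev y hy
    have h3 := hsm i
    rw [abs_le] at h1 h2
    have h4 : |((x : ℕ) : ℝ) / R - ((y : ℕ) : ℝ) / R| < 1 / R := by
      rw [abs_lt]
      constructor <;> linarith [h1.1, h1.2, h2.1, h2.2]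
    rw [← sub_div, abs_div, abs_of_pos hRr, div_lt_div_iff_of_pos_right hRr] at h4
    have h5 : |((x : ℕ) : ℤ) - ((y : ℕ) : ℤ)| < 1 := by exact_mod_cast h4
    rw [Int.abs_lt_one_iff] at h5
    exact Fin.ext (by omega)
  have hi : i ≠ 0 := by
    intro hi
    have h1 := Pe_un_le hR0 hp (fun w : H.Ω × Fin R => G ((w, x₁), x₂))
      fun ω x y hx hy => key ω x y hi hx hy
    linarith
  obtain ⟨j, rfl⟩ := Fin.exists_succ_eq.2 hi
  obtain ⟨x₀, g1⟩ := Pe_un (p := H.p) hR0 (fun w => G ((w, x₁), x₂)) g1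
  obtain ⟨L, hL⟩ : ∃ L : (Fin c → ℤ) × (H.Vt × H.B) →
      (Fin (c + 1) → ℤ) × ((dum H R (2 ^ X)).Vt × (dum H R (2 ^ X)).B),
      L = fun x => (Fin.cons ((x₂ : ℕ) : ℤ) x.1, ((x.2.1, ((x₁ : ℕ) : ℤ)), x.2.2)) := ⟨_, rfl⟩
  have hLl : ∀ ω, (dum H R (2 ^ X)).line (((ω, x₀), x₁), x₂) = L (H.line ω) := fun ω => by
    rw [hL]
    rfl
  refine ⟨j, fun x l => lam (L x) l.succ, fun x l => lamP (Fin.cons (hz ((((), x₀), x₁), x₂)) x.1,
    x.2) l.succ, fun x a u => ep (L x) a u.succ, fun ω => G (((ω, x₀), x₁), x₂), g1, ?_, ?_, ?_,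
    ?_, ?_, ?_⟩
  · intro ω hω
    have h1 := g2 _ hω
    rw [hLl] at h1
    exact h1
  · intro x l hl
    exact g3 _ _ (Fin.succ_lt_succ_iff.2 hl)
  · intro x l
    exact g4 _ _
  · intro z a u
    exact g5 _ _ _
  · intro ω hω
    have h1 := g6 _ hω
    rw [hLl] at h1
    funext l
    exact congrFun h1 l.succ
  · intro ω hω u
    have h1 := g7 _ hω u.succ
    rw [Fin.sum_univ_succ] at h1
    have e1 : (dum H R (2 ^ X)).E ((dum H R (2 ^ X)).th (((ω, x₀), x₁), x₂)) u.succ 0 = 0 := rfl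
    rw [e1, mul_zero, zero_add, hLl] at h1
    exact h1

end Pool.V0D
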