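import Pool.Agent.H24.DR3.Lam
import Pool.Agent.H10.FTM.Pure

/-!
# Three independent uniform variables

`u3`: the law with three independent uniform variables (coin, position, height).
-/

set_option autoImplicit false

namespace Pool.V0D

open Finset Real
open Pool.Agent.H49.Ent Pool.Agent.H32.Dense Pool.STK
open Pool.FTM (un un_isLaw un_psh CH_un CH_un_snd un_pos)
open Pool.K2S (Pe)
open Pool.DIR21 (Pe_ci ci ci0 ci1)

variable {Ω : Type} [Fintype Ω] {N M R : ℕ} {S T U V : Type} {p : Ω → ℝ}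

/-- The uniform variable in the context. -/
theorem CH_un_c (hN : 0 < N) (hp : IsLaw p) (X : Ω → S) (Z : Ω → T) :
    CH (un N p) (fun w => X w.1) (fun w => (w.2, Z w.1)) = CH p X Z := by
  have h0 : (N : ℝ) ≠ 0 := by exact_mod_cast hN.ne'
  rw [CH_un hN hp (fun w => X w.1) (fun w => Z w.1)]
  show (∑ _i : Fin N, CH p (fun ω => X ω) (fun ω => Z ω)) / N = _
  rw [Finset.sum_const, Finset.card_univ, Fintype.card_fin, nsmul_eq_mul]
  field_simp

/-- Without the uniform variable. -/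
theorem CH_un_f (hN : 0 < N) (X : Ω → S) (Z : Ω → T) :
    CH (un N p) (fun w => X w.1) (fun w => Z w.1) = CH p X Z := by
  unfold CH
  rw [H_eq_of_marginal Prod.fst (un_psh hN p) Z,
    H_eq_of_marginal Prod.fst (un_psh hN p) (fun ω => (X ω, Z ω))]

/-- The samples with three independent variables. -/
abbrev W3 (Ω : Type) (R M : ℕ) : Type := ((Ω × Fin R) × Fin M) × Fin M

/-- The law with three independent variables. -/
noncomputable abbrev u3 (R M : ℕ) (p : Ω → ℝ) : W3 Ω R M → ℝ := un M (un M (un R p))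

/-- The three variables. -/
def cu (w : W3 Ω R M) : Fin M × (Fin M × Fin R) := (w.2, (w.1.2, w.1.1.2))

theorem u3_law (hR : 0 < R) (hM : 0 < M) (hp : IsLaw p) : IsLaw (u3 R M p) :=
  un_isLaw hM (un_isLaw hM (un_isLaw hR hp))

omit [Fintype Ω] in
theorem u3_pos {w : W3 Ω R M} (h : 0 < u3 R M p w) : 0 < p w.1.1.1 := un_pos (un_pos (un_pos h))

theorem u3_f (hR : 0 < R) (hM : 0 < M) (X : Ω → S) (Z : Ω → T) :
    CH (u3 R M p) (fun w => X w.1.1.1) (fun w => Z w.1.1.1) = CH p X Z := by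
  rw [CH_un_f hM (fun w : (Ω × Fin R) × Fin M => X w.1.1) (fun w => Z w.1.1),
    CH_un_f hM (fun w : Ω × Fin R => X w.1) (fun w => Z w.1), CH_un_f hR]

theorem u3_c (hR : 0 < R) (hM : 0 < M) (hp : IsLaw p) (X : Ω → S) (Z : Ω → T) :
    CH (u3 R M p) (fun w => X w.1.1.1) (fun w => (cu w, Z w.1.1.1)) = CH p X Z := by
  have h3 := (u3_law hR hM hp).nonneg
  have e1 : CH (u3 R M p) (fun w => X w.1.1.1) (fun w => (cu w, Z w.1.1.1)) =
      CH (u3 R M p) (fun w => X w.1.1.1) (fun w => (w.2, (w.1.2, (w.1.1.2, Z w.1.1.1)))) := by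
    refine CH_congr h3 (fun _ _ _ _ h => (Prod.ext_iff.mp h).1)
      (fun _ _ _ _ h => (Prod.ext_iff.mp h).1) ?_ ?_
    · intro w w' _ _ h
      unfold cu at h
      simp only [Prod.mk.injEq] at h ⊢
      exact ⟨h.1.1, h.1.2.1, h.1.2.2, h.2⟩
    · intro w w' _ _ h
      unfold cu
      simp only [Prod.mk.injEq] at h ⊢
      exact ⟨⟨h.1, h.2.1, h.2.2.1⟩, h.2.2.2⟩
  rw [e1, CH_un_c hM (un_isLaw hM (un_isLaw hR hp)) (fun w : (Ω × Fin R) × Fin M => X w.1.1)
    (fun w => (w.2, (w.1.2, Z w.1.1))), CH_un_c hM (un_isLaw hR hp)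
    (fun w : Ω × Fin R => X w.1) (fun w => (w.2, Z w.1)), CH_un_c hR hp]

/-- The context may contain the independent variables: lower bound. -/
theorem u3_ge (hR : 0 < R) (hM : 0 < M) (hp : IsLaw p) (X : Ω → S) (Z : Ω → T)
    {W : W3 Ω R M → U} (h : Det (u3 R M p) (fun w => (cu w, Z w.1.1.1)) W) :
    CH p X Z ≤ CH (u3 R M p) (fun w => X w.1.1.1) W := by
  rw [← u3_c hR hM hp X Z]
  exact CH_mono_cond (u3_law hR hM hp).nonneg h

/-- The context may contain the independent variables: upper bound. -/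
theorem u3_le (hR : 0 < R) (hM : 0 < M) (hp : IsLaw p) (X : Ω → S) (Z : Ω → T)
    {W : W3 Ω R M → U} (h : Det (u3 R M p) W (fun w => Z w.1.1.1)) :
    CH (u3 R M p) (fun w => X w.1.1.1) W ≤ CH p X Z := by
  rw [← u3_f (p := p) hR hM X Z]
  exact CH_mono_cond (u3_law hR hM hp).nonneg h

/-- The height is free. -/
theorem u3_h (hR : 0 < R) (hM : 0 < M) (hp : IsLaw p) {f : W3 Ω R M → S} {W : W3 Ω R M → T}
    (V : (Ω × Fin R) × Fin M → U) (h : Det (u3 R M p) (fun w => V w.1) W)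
    (hf : ∀ w w' : W3 Ω R M, V w.1 = V w'.1 → f w = f w' → w.2 = w'.2) :
    Real.log M ≤ CH (u3 R M p) f W := by
  have h3 := (u3_law hR hM hp).nonneg
  rw [← CH_un_snd hM (un_isLaw hM (un_isLaw hR hp)) V]
  refine (CH_mono_left h3 (X' := f) ?_).trans (CH_mono_cond h3 h)
  intro w w' _ _ e
  exact hf w w' (Prod.ext_iff.mp e).2 (Prod.ext_iff.mp e).1

/-- The position is free. -/
theorem u3_y (hR : 0 < R) (hM : 0 < M) (hp : IsLaw p) {f : W3 Ω R M → S} {W : W3 Ω R M → T}
    (V : Ω × Fin R → U) (h : Det (u3 R M p) (fun w => V w.1.1) W)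
    (hf : ∀ w w' : W3 Ω R M, V w.1.1 = V w'.1.1 → f w = f w' → w.1.2 = w'.1.2) :
    Real.log M ≤ CH (u3 R M p) f W := by
  have h3 := (u3_law hR hM hp).nonneg
  have e1 := CH_un_snd hM (un_isLaw hR hp) V
  rw [← CH_un_f (p := un M (un R p)) hM Prod.snd (fun w => V w.1)] at e1
  rw [← e1]
  refine (CH_mono_left h3 (X' := f) ?_).trans (CH_mono_cond h3 h)
  intro w w' _ _ e
  exact hf w w' (Prod.ext_iff.mp e).2 (Prod.ext_iff.mp e).1

/-- The mass of an event of one slice. -/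
theorem Pe_un {N : ℕ} (hN : 0 < N) (G : Ω × Fin N → Prop) {m : ℝ} (h : m ≤ Pe (un N p) G) :
    ∃ i, m ≤ Pe p (fun ω => G (ω, i)) := by
  classical
  have hN' : (0 : ℝ) < N := by exact_mod_cast hN
  have e1 : Pe (un N p) G = ∑ i : Fin N, Pe p (fun ω => G (ω, i)) / N := by
    simp only [Pe_ci]
    rw [Fintype.sum_prod_type, Finset.sum_comm]
    refine Finset.sum_congr rfl fun i _ => ?_
    rw [Finset.sum_div]
    refine Finset.sum_congr rfl fun ω _ => ?_
    unfold un
    ring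
  by_contra hcon
  push Not at hcon
  have h2 : ∑ i : Fin N, Pe p (fun ω => G (ω, i)) / N < ∑ _i : Fin N, m / N :=
    Finset.sum_lt_sum_of_nonempty ⟨⟨0, hN⟩, Finset.mem_univ _⟩ fun i _ =>
      (div_lt_div_iff_of_pos_right hN').2 (hcon i)
  rw [Finset.sum_const, Finset.card_univ, Fintype.card_fin, nsmul_eq_mul] at h2
  have e2 : (N : ℝ) * (m / N) = m := by field_simp
  linarith

/-- An event which knows the variable is small. -/
theorem Pe_un_le {N : ℕ} (hN : 0 < N) (hp : IsLaw p) (G : Ω × Fin N → Prop)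
    (h : ∀ ω i j, G (ω, i) → G (ω, j) → i = j) : Pe (un N p) G ≤ 1 / N := by
  classical
  have hN' : (0 : ℝ) < N := by exact_mod_cast hN
  rw [Pe_ci, Fintype.sum_prod_type]
  have h1 : ∀ ω, (∑ i : Fin N, un N p (ω, i) * ci (G (ω, i))) ≤ p ω / N := by
    intro ω
    by_cases hG : ∃ i, G (ω, i)
    · obtain ⟨i, hi⟩ := hG
      rw [Finset.sum_eq_single i]
      · rw [ci1 hi, mul_one]
        rfl
      · intro j _ hj
        rw [ci0 fun h' => hj (h ω j i h' hi), mul_zero]
      · intro h'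
        exact absurd (Finset.mem_univ i) h'
    · push Not at hG
      rw [Finset.sum_eq_zero fun i _ => by rw [ci0 (hG i), mul_zero]]
      exact div_nonneg (hp.nonneg ω) hN'.le
  refine (Finset.sum_le_sum fun ω _ => h1 ω).trans (le_of_eq ?_)
  rw [← Finset.sum_div, hp.sum_one]

end Pool.V0D
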